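import Mathlib
import Pool.Agent.W363.JQ.Stm

set_option autoImplicit false
open Filter Topology Set Metric

namespace Pool.Agent.W356.JQ

open Pool.Agent.W363.JQ

/-- a path in the open disc `U` avoiding a finite set -/
theorem path_avoid {U : Set ℂ} {ψ χ : ℂ → ℂ} (hχ : ContinuousOn χ (ball 0 1))
    (mapψ : ∀ z ∈ U, ψ z ∈ ball (0 : ℂ) 1 ∧ χ (ψ z) = z)
    (mapχ : ∀ w ∈ ball (0 : ℂ) 1, χ w ∈ U ∧ ψ (χ w) = w)
    {CV : Set ℂ} (hCV : CV.Finite) {a b : ℂ} (ha : a ∈ U) (hb : b ∈ U) (ha' : a ∉ CV) (hb' : b ∉ CV) :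
    ∃ c : ℝ → ℂ, ContinuousOn c (Icc 0 1) ∧ c 0 = a ∧ c 1 = b ∧ ∀ t ∈ Icc (0 : ℝ) 1, c t ∈ U ∧ c t ∉ CV := by
  let T : OpenPartialHomeomorph ℂ ℂ := OpenPartialHomeomorph.univUnitBall
  have hsrc : T.source = univ := rfl
  have htgt : T.target = ball (0 : ℂ) 1 := rfl
  have hT : ∀ x, T x ∈ ball (0 : ℂ) 1 := fun x => htgt ▸ T.map_source (hsrc ▸ mem_univ x)
  have hTc : Continuous T := by
    have := T.continuousOn
    rwa [hsrc, continuousOn_univ] at this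
  have hFc : Continuous (fun x => χ (T x)) := hχ.comp_continuous hTc hT
  have hFinj : Function.Injective (fun x => χ (T x)) := by
    intro x y hxy
    have h1 : ψ (χ (T x)) = ψ (χ (T y)) := congrArg ψ hxy
    rw [(mapχ _ (hT x)).2, (mapχ _ (hT y)).2] at h1
    exact T.injOn (hsrc ▸ mem_univ x) (hsrc ▸ mem_univ y) h1
  have hG : ∀ u ∈ U, χ (T (T.symm (ψ u))) = u := by
    intro u hu
    rw [T.right_inv (by rw [htgt]; exact (mapψ u hu).1)]
    exact (mapψ u hu).2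
  have hbad : ((fun x => χ (T x)) ⁻¹' CV).Finite := hCV.preimage hFinj.injOn
  have hpc := hbad.countable.isPathConnected_compl_of_one_lt_rank
    (Complex.rank_real_complex ▸ Nat.one_lt_ofNat)
  have hja : T.symm (ψ a) ∈ ((fun x => χ (T x)) ⁻¹' CV)ᶜ := by
    rw [mem_compl_iff, mem_preimage, hG a ha]
    exact ha'
  have hjb : T.symm (ψ b) ∈ ((fun x => χ (T x)) ⁻¹' CV)ᶜ := by
    rw [mem_compl_iff, mem_preimage, hG b hb]
    exact hb'
  obtain ⟨γ, hγ⟩ := hpc.joinedIn _ hja _ hjb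
  refine ⟨fun t => χ (T (γ.extend t)), (hFc.comp γ.continuous_extend).continuousOn, ?_, ?_, ?_⟩
  · simp only [Path.extend_zero]
    exact hG a ha
  · simp only [Path.extend_one]
    exact hG b hb
  · intro t ht
    refine ⟨(mapχ _ (hT _)).1, ?_⟩
    have h1 := hγ ⟨t, ht⟩
    rw [← Path.extend_apply γ ht] at h1
    exact h1

/-- the closed collar is path connected -/
theorem collar {U : Set ℂ} {ψ χ : ℂ → ℂ} (hχ : ContinuousOn χ (ball 0 1))
    (mapψ : ∀ z ∈ U, ψ z ∈ ball (0 : ℂ) 1 ∧ χ (ψ z) = z)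
    (mapχ : ∀ w ∈ ball (0 : ℂ) 1, χ w ∈ U ∧ ψ (χ w) = w) {ρ : ℝ} (h0 : 0 < ρ) (h1 : ρ < 1) :
    IsPathConnected {z | z ∈ U ∧ ρ ≤ ‖ψ z‖} := by
  have hS : Convex ℝ {ζ : ℂ | Real.log ρ ≤ ζ.re ∧ ζ.re < 0} :=
    (convex_halfSpace_re_ge _).inter (convex_halfSpace_re_lt _)
  have hne : ({ζ : ℂ | Real.log ρ ≤ ζ.re ∧ ζ.re < 0}).Nonempty :=
    ⟨(Real.log ρ : ℂ), by simp, by simpa using Real.log_neg h0 h1⟩
  have hP := hS.isPathConnected hne
  have hnorm : ∀ ζ : ℂ, ζ ∈ {ζ : ℂ | Real.log ρ ≤ ζ.re ∧ ζ.re < 0} → ρ ≤ ‖Complex.exp ζ‖ ∧ ‖Complex.exp ζ‖ < 1 := by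
    intro ζ hζ
    rw [Complex.norm_exp]
    refine ⟨?_, ?_⟩
    · rw [← Real.exp_log h0]
      exact Real.exp_le_exp.mpr hζ.1
    · rw [← Real.exp_zero]
      exact Real.exp_lt_exp.mpr hζ.2
  have hball : ∀ ζ : ℂ, ζ ∈ {ζ : ℂ | Real.log ρ ≤ ζ.re ∧ ζ.re < 0} → Complex.exp ζ ∈ ball (0 : ℂ) 1 := by
    intro ζ hζ
    rw [mem_ball_zero_iff]
    exact (hnorm ζ hζ).2
  have hc : ContinuousOn (fun ζ => χ (Complex.exp ζ)) {ζ : ℂ | Real.log ρ ≤ ζ.re ∧ ζ.re < 0} :=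
    hχ.comp Complex.continuous_exp.continuousOn hball
  have himg := hP.image' hc
  convert himg using 1
  ext z
  constructor
  · rintro ⟨hz, hρ⟩
    have hpos : 0 < ‖ψ z‖ := lt_of_lt_of_le h0 hρ
    have hne0 : ψ z ≠ 0 := norm_pos_iff.mp hpos
    refine ⟨Complex.log (ψ z), ⟨?_, ?_⟩, ?_⟩
    · rw [Complex.log_re]
      exact Real.log_le_log h0 hρ
    · rw [Complex.log_re]
      exact Real.log_neg hpos (mem_ball_zero_iff.mp (mapψ z hz).1)
    · simp only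
      rw [Complex.exp_log hne0]
      exact (mapψ z hz).2
  · rintro ⟨ζ, hζ, rfl⟩
    have h3 := mapχ _ (hball ζ hζ)
    refine ⟨h3.1, ?_⟩
    simp only
    rw [h3.2]
    exact (hnorm ζ hζ).1

theorem path_ext {A : Set ℂ} (hA : IsPathConnected A) {a b : ℂ} (ha : a ∈ A) (hb : b ∈ A) :
    ∃ c : ℝ → ℂ, ContinuousOn c (Icc 0 1) ∧ c 0 = a ∧ c 1 = b ∧ ∀ t ∈ Icc (0 : ℝ) 1, c t ∈ A := by
  obtain ⟨γ, hγ⟩ := hA.joinedIn _ ha _ hb
  refine ⟨γ.extend, γ.continuous_extend.continuousOn, Path.extend_zero _, Path.extend_one _, ?_⟩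
  intro t ht
  rw [Path.extend_apply γ ht]
  exact hγ _

/-- critical values -/
theorem cv_finite (f : Polynomial ℂ) (hd : 2 ≤ f.natDegree) : {w | ¬ CVfree f w}.Finite := by
  have hne : f.derivative ≠ 0 := by
    intro h
    have := Polynomial.derivative_eq_zero.mp h
    omega
  have h1 : {z : ℂ | f.derivative.eval z = 0}.Finite := by
    refine (f.derivative.roots.toFinset.finite_toSet).subset ?_
    intro z hz
    rw [Finset.mem_coe, Multiset.mem_toFinset, Polynomial.mem_roots hne]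
    exact hz
  refine (h1.image (fun z => f.eval z)).subset ?_
  intro w hw
  have hw' : ¬ ∀ z, f.derivative.eval z = 0 → f.eval z ≠ w := hw
  push Not at hw'
  obtain ⟨z, hz, hzw⟩ := hw'
  exact ⟨z, hz, hzw⟩

theorem open_avoid {O CV : Set ℂ} (hO : IsOpen O) (hne : O.Nonempty) (hCV : CV.Finite) :
    ∃ w ∈ O, w ∉ CV := by
  have h1 : Dense CVᶜ := hCV.countable.dense_compl ℝ
  obtain ⟨w, hw, hw'⟩ := h1.inter_open_nonempty O hO hne
  exact ⟨w, hw, hw'⟩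

theorem base (h1 : S_plift) (h2 : S_plu) : S_base := by
  intro f r U p ψ χ hB hD hPC hDi
  have hχc : ContinuousOn χ (ball 0 1) := hDi.difχ.continuousOn
  have hψc : ContinuousOn ψ U := hDi.difψ.continuousOn
  have mapψ := hDi.mapψ
  have mapχ := hDi.mapχ
  -- `U` is disjoint from the Julia set
  have hUint : U ⊆ interior (KK f) := interior_maximal hD.sub hD.op
  have hUJ : ∀ z ∈ U, z ∉ JJ f := by
    intro z hz hzJ
    have h3 : z ∈ frontier (KK f) := hzJ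
    rw [frontier, Set.mem_sdiff] at h3
    exact h3.2 (hUint hz)
  have hclU : closure U = U ∪ frontier U := closure_eq_self_union_frontier U
  have hclc : IsCompact (closure U) :=
    hB.cpt.of_isClosed_subset isClosed_closure (closure_minimal hD.sub hB.cpt.isClosed)
  -- the postcritical set in `U`
  have hK1 : IsCompact (PC f ∩ closure U) := hclc.inter_left isClosed_closure
  have hK1U : PC f ∩ closure U ⊆ U := by
    rintro z ⟨hz1, hz2⟩
    rw [hclU] at hz2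
    rcases hz2 with h | h
    · exact h
    · exact absurd (hD.fr h) (fun h' => (disjoint_left.mp hD.hyp.disj) hz1 h')
  obtain ⟨a1, ha1, hK1b⟩ := (hK1.exists_forall_le' (α := ℝ) (f := fun z => - ‖ψ z‖)
    ((hψc.mono hK1U).norm.neg) (a := -1) (fun z hz => by
      have := (mapψ z (hK1U hz)).1
      rw [mem_ball_zero_iff] at this
      linarith))
  obtain ⟨ρ, hρdef⟩ : ∃ ρ : ℝ, ρ = (max (-a1) 0 + 1) / 2 := ⟨_, rfl⟩
  have hmax : max (-a1) 0 < 1 := max_lt (by linarith) one_pos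
  have hmax0 : 0 ≤ max (-a1) 0 := le_max_right _ _
  have hρ0 : 0 < ρ := by rw [hρdef]; linarith
  have hρ1 : ρ < 1 := by rw [hρdef]; linarith
  have hPCρ : ∀ z ∈ U, z ∈ PC f → ‖ψ z‖ < ρ := by
    intro z hz hzP
    have h3 := hK1b z ⟨hzP, subset_closure hz⟩
    have h4 : -a1 ≤ max (-a1) 0 := le_max_left _ _
    rw [hρdef]
    linarith
  set A : Set ℂ := {z | z ∈ U ∧ ρ ≤ ‖ψ z‖} with hA
  have hAback : ∀ u ∈ U, f.eval u ∈ A → u ∈ A := by
    intro u hu hfu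
    by_contra hcon
    have hlt : ‖ψ u‖ < ρ := by
      by_contra h
      push Not at h
      exact hcon ⟨hu, h⟩
    obtain ⟨κ, k0, k1, hκ⟩ := hDi.contr ρ hρ1
    have h3 := hκ u hu hlt.le
    have h4 := hfu.2
    have h5 : κ * ‖ψ u‖ ≤ ‖ψ u‖ := mul_le_of_le_one_left (norm_nonneg _) k1.le
    linarith
  have hAleave : ∀ ε : ℝ, 0 < ε → ∃ n₀ : ℕ, ∀ n, n₀ ≤ n → ∀ u ∈ U, it f n u ∈ A →
      ∃ x ∈ JJ f, dist u x < ε := by
    intro ε hε
    have hK2 : IsCompact (closure U ∩ {u | ε ≤ infDist u (JJ f)}) :=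
      hclc.inter_right (isClosed_le continuous_const (continuous_infDist_pt _))
    have hK2U : closure U ∩ {u | ε ≤ infDist u (JJ f)} ⊆ U := by
      rintro z ⟨hz1, hz2⟩
      rw [hclU] at hz1
      rcases hz1 with h | h
      · exact h
      · exfalso
        have h3 : infDist z (JJ f) = 0 := infDist_zero_of_mem (hD.fr h)
        rw [mem_ofPred_eq, h3] at hz2
        linarith
    obtain ⟨b1, hb1, hK2b⟩ := (hK2.exists_forall_le' (α := ℝ) (f := fun z => - ‖ψ z‖)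
      ((hψc.mono hK2U).norm.neg) (a := -1) (fun z hz => by
        have := (mapψ z (hK2U hz)).1
        rw [mem_ball_zero_iff] at this
        linarith))
    obtain ⟨σ, hσdef⟩ : ∃ σ : ℝ, σ = max (-b1) 0 := ⟨_, rfl⟩
    have hσ1 : σ < 1 := by rw [hσdef]; exact max_lt (by linarith) one_pos
    have hσ0 : 0 ≤ σ := by rw [hσdef]; exact le_max_right _ _
    obtain ⟨κ, k0, k1, hκ⟩ := hDi.contr σ hσ1
    have hiter : ∀ u ∈ U, ‖ψ u‖ ≤ σ → ∀ n, it f n u ∈ U ∧ ‖ψ (it f n u)‖ ≤ κ ^ n * σ := by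
      intro u hu hus n
      induction n with
      | zero => exact ⟨hu, by simpa using hus⟩
      | succ n ih =>
        have e1 : it f (n + 1) u = f.eval (it f n u) := Function.iterate_succ_apply' _ _ _
        rw [e1]
        refine ⟨hD.map _ ih.1, ?_⟩
        have h3 : κ ^ n * σ ≤ σ := mul_le_of_le_one_left hσ0 (pow_le_one₀ k0 k1.le)
        have h4 := hκ _ ih.1 (ih.2.trans h3)
        refine h4.trans ?_
        rw [pow_succ]
        have h5 := mul_le_mul_of_nonneg_left ih.2 k0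
        linarith
    obtain ⟨n₀, hn₀⟩ := exists_pow_lt_of_lt_one hρ0 k1
    refine ⟨n₀, fun n hn u hu hA' => ?_⟩
    by_contra hcon
    have hinf : ε ≤ infDist u (JJ f) := by
      by_contra h
      push Not at h
      rw [infDist_lt_iff hB.jne] at h
      exact hcon h
    have hus : ‖ψ u‖ ≤ σ := by
      have h3 := hK2b u ⟨subset_closure hu, hinf⟩
      have h4 : -b1 ≤ σ := by rw [hσdef]; exact le_max_left _ _
      linarith
    have h3 := (hiter u hu hus n).2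
    have h4 : κ ^ n ≤ κ ^ n₀ := pow_le_pow_of_le_one k0 k1.le hn
    have h5 : κ ^ n * σ ≤ κ ^ n := mul_le_of_le_one_right (pow_nonneg k0 _) hσ1.le
    have h6 := hA'.2
    linarith
  -- critical values
  have hCV := cv_finite f hD.hyp.deg
  have hopen : IsOpenMap f.eval := (f.isOpenQuotientMap_eval (by have := hD.hyp.deg; omega)).isOpenMap
  -- two preimages
  have hninj := hD.ninj
  unfold Set.InjOn at hninj
  push Not at hninj
  obtain ⟨u1, hu1, u2, hu2, hf12, hne12⟩ := hninj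
  obtain ⟨O1, O2, hO1, hO2, hm1, hm2, hdis⟩ := t2_separation hne12
  have hW : IsOpen (f.eval '' (O1 ∩ U) ∩ f.eval '' (O2 ∩ U)) :=
    (hopen _ (hO1.inter hD.op)).inter (hopen _ (hO2.inter hD.op))
  have hWne : (f.eval '' (O1 ∩ U) ∩ f.eval '' (O2 ∩ U)).Nonempty :=
    ⟨f.eval u1, ⟨u1, ⟨hm1, hu1⟩, rfl⟩, ⟨u2, ⟨hm2, hu2⟩, hf12.symm⟩⟩
  obtain ⟨v, ⟨⟨w1, ⟨hw1O, hw1U⟩, hw1v⟩, ⟨w2, ⟨hw2O, hw2U⟩, hw2v⟩⟩, hvCV⟩ := open_avoid hW hWne hCV
  have hw12 : w1 ≠ w2 := by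
    rintro rfl
    exact (disjoint_left.mp hdis) hw1O hw2O
  have hvU : v ∈ U := by rw [← hw1v]; exact hD.map w1 hw1U
  -- the base point
  have hZo : IsOpen {z | z ∈ U ∧ ρ < ‖ψ z‖} := by
    have := hψc.norm.isOpen_inter_preimage hD.op (isOpen_Ioi (a := ρ))
    exact this
  have hZne : ({z | z ∈ U ∧ ρ < ‖ψ z‖}).Nonempty := by
    have hm : (((ρ + 1) / 2 : ℝ) : ℂ) ∈ ball (0 : ℂ) 1 := by
      rw [mem_ball_zero_iff, Complex.norm_real, Real.norm_of_nonneg (by linarith)]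
      linarith
    refine ⟨χ (((ρ + 1) / 2 : ℝ) : ℂ), (mapχ _ hm).1, ?_⟩
    rw [(mapχ _ hm).2, Complex.norm_real, Real.norm_of_nonneg (by linarith)]
    linarith
  obtain ⟨z₀, ⟨hz₀U, hz₀ρ⟩, hz₀CV⟩ := open_avoid hZo hZne hCV
  have hz₀A : z₀ ∈ A := ⟨hz₀U, hz₀ρ.le⟩
  obtain ⟨c, hcc, hc0, hc1, hcU⟩ := path_avoid hχc mapψ mapχ hCV hvU hz₀U hvCV hz₀CV
  have hCVf : ∀ t ∈ Icc (0 : ℝ) 1, CVfree f (c t) := by
    intro t ht
    by_contra h
    exact (hcU t ht).2 h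
  have hdeg1 : 1 ≤ f.natDegree := by have := hD.hyp.deg; omega
  have hlift : ∀ w ∈ U, f.eval w = v → ∃ γ : ℝ → ℂ, ContinuousOn γ (Icc 0 1) ∧ γ 0 = w ∧
      (∀ t ∈ Icc (0 : ℝ) 1, f.eval (γ t) = c t) ∧ ∀ t ∈ Icc (0 : ℝ) 1, γ t ∈ U := by
    intro w hw hwv
    obtain ⟨γ, g1, g2, g3⟩ := h1 f hdeg1 0 1 c zero_le_one hcc hCVf w (by rw [hwv, hc0])
    refine ⟨γ, g1, g2, g3, ?_⟩
    have hpre : IsPreconnected (γ '' Icc 0 1) := isPreconnected_Icc.image _ g1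
    have hsub : γ '' Icc 0 1 ⊆ U ∪ (closure U)ᶜ := by
      rintro _ ⟨t, ht, rfl⟩
      by_cases hcl : γ t ∈ closure U
      · rw [hclU] at hcl
        rcases hcl with h | h
        · exact Or.inl h
        · exfalso
          have h3 : γ t ∈ JJ f := hD.fr h
          have h4 : f.eval (γ t) ∈ JJ f := (hB.invJ _).mpr h3
          rw [g3 t ht] at h4
          exact hUJ _ (hcU t ht).1 h4
      · exact Or.inr hcl
    have hU' := hpre.subset_left_of_subset_union hD.op isClosed_closure.isOpen_compl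
      (disjoint_compl_right.mono_left subset_closure) hsub
      ⟨w, ⟨0, ⟨le_rfl, zero_le_one⟩, g2⟩, hw⟩
    intro t ht
    exact hU' ⟨t, ht, rfl⟩
  obtain ⟨γ1, a1c, a10, a1f, a1U⟩ := hlift w1 hw1U hw1v
  obtain ⟨γ2, a2c, a20, a2f, a2U⟩ := hlift w2 hw2U hw2v
  have m1 : (1 : ℝ) ∈ Icc (0 : ℝ) 1 := ⟨zero_le_one, le_rfl⟩
  have m0 : (0 : ℝ) ∈ Icc (0 : ℝ) 1 := ⟨le_rfl, zero_le_one⟩
  have hneq : γ2 1 ≠ γ1 1 := by
    intro heq
    have h3 := h2 f (Icc 0 1) γ2 γ1 isPreconnected_Icc a2c a1c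
      (fun t ht => by rw [a1f t ht, a2f t ht])
      (fun t ht h => hCVf t ht _ h (a2f t ht)) (fun t ht h => hCVf t ht _ h (a1f t ht)) 1 m1 heq 0 m0
    rw [a10, a20] at h3
    exact hw12 h3.symm
  have hApc := collar hχc mapψ mapχ hρ0 hρ1
  let zz : Bool → ℂ := fun i => if i then γ2 1 else γ1 1
  have hzf : ∀ i, f.eval (zz i) = z₀ := by
    intro i
    cases i
    · show f.eval (γ1 1) = z₀
      rw [a1f 1 m1, hc1]
    · show f.eval (γ2 1) = z₀
      rw [a2f 1 m1, hc1]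
  have hzU : ∀ i, zz i ∈ U := by
    intro i
    cases i
    · exact a1U 1 m1
    · exact a2U 1 m1
  have hzA : ∀ i, zz i ∈ A := fun i => hAback _ (hzU i) (by rw [hzf]; exact hz₀A)
  have hpaths : ∀ i, ∃ c : ℝ → ℂ, ContinuousOn c (Icc 0 1) ∧ c 0 = z₀ ∧ c 1 = zz i ∧
      ∀ t ∈ Icc (0 : ℝ) 1, c t ∈ A := fun i => path_ext hApc hz₀A (hzA i)
  choose cc cc1 cc2 cc3 cc4 using hpaths
  refine ⟨A, z₀, zz, cc, ?_⟩
  exact
    { AU := fun z hz => hz.1
      Apc := by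
        rw [disjoint_left]
        intro z hz hzP
        have h3 := hPCρ z hz.1 hzP
        have h4 := hz.2
        linarith
      Aback := hAback
      Aleave := hAleave
      ccont := cc1
      cA := cc4
      c0 := cc2
      c1 := cc3
      fz := hzf
      ne := hneq }

end Pool.Agent.W356.JQ
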